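import Mathlib

set_option autoImplicit false

namespace Pool.Agent.H902Z.LInf

theorem split (x y z : ℝ) (h1 : |y| < |x|) (h2 : |z| < |x|) :
    (-y < -x ∧ y < -x ∧ -z < -x ∧ z < -x) ∨ (-y < x ∧ y < x ∧ -z < x ∧ z < x) := by
  have hy := abs_lt.1 h1
  have hz := abs_lt.1 h2
  rcases le_total x 0 with h | h
  · left
    rw [abs_of_nonpos h] at hy hz
    exact ⟨by linarith [hy.1], hy.2, by linarith [hz.1], hz.2⟩
  · right
    rw [abs_of_nonneg h] at hy hz
    exact ⟨by linarith [hy.1], hy.2, by linarith [hz.1], hz.2⟩

/-- colour of the edges of `K_6` -/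
def col : Fin 6 → Fin 6 → Fin 3 :=
  ![![0, 2, 0, 0, 1, 0], ![2, 0, 2, 0, 0, 1], ![0, 2, 0, 2, 1, 1], ![0, 0, 2, 0, 2, 1], ![1, 0, 1, 2, 0, 2], ![0, 1, 1, 1, 2, 0]]

theorem no_placement (p : Fin 6 → Fin 3 → ℝ)
    (h : ∀ u v : Fin 6, u ≠ v → ∀ j : Fin 3, j ≠ col u v →
      |p u j - p v j| < |p u (col u v) - p v (col u v)|) : False := by
  have h0 := split (p 0 0 - p 5 0) (p 0 1 - p 5 1) (p 0 2 - p 5 2)
    (h 0 5 (by decide) 1 (by decide)) (h 0 5 (by decide) 2 (by decide))
  have h1 := split (p 1 0 - p 4 0) (p 1 1 - p 4 1) (p 1 2 - p 4 2)
    (h 1 4 (by decide) 1 (by decide)) (h 1 4 (by decide) 2 (by decide))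
  have h2 := split (p 0 0 - p 3 0) (p 0 1 - p 3 1) (p 0 2 - p 3 2)
    (h 0 3 (by decide) 1 (by decide)) (h 0 3 (by decide) 2 (by decide))
  have h3 := split (p 1 0 - p 3 0) (p 1 1 - p 3 1) (p 1 2 - p 3 2)
    (h 1 3 (by decide) 1 (by decide)) (h 1 3 (by decide) 2 (by decide))
  have h4 := split (p 0 0 - p 2 0) (p 0 1 - p 2 1) (p 0 2 - p 2 2)
    (h 0 2 (by decide) 1 (by decide)) (h 0 2 (by decide) 2 (by decide))
  have h5 := split (p 2 1 - p 4 1) (p 2 0 - p 4 0) (p 2 2 - p 4 2)
    (h 2 4 (by decide) 0 (by decide)) (h 2 4 (by decide) 2 (by decide))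
  have h6 := split (p 2 1 - p 5 1) (p 2 0 - p 5 0) (p 2 2 - p 5 2)
    (h 2 5 (by decide) 0 (by decide)) (h 2 5 (by decide) 2 (by decide))
  have h7 := split (p 3 1 - p 5 1) (p 3 0 - p 5 0) (p 3 2 - p 5 2)
    (h 3 5 (by decide) 0 (by decide)) (h 3 5 (by decide) 2 (by decide))
  have h8 := split (p 0 1 - p 4 1) (p 0 0 - p 4 0) (p 0 2 - p 4 2)
    (h 0 4 (by decide) 0 (by decide)) (h 0 4 (by decide) 2 (by decide))
  have h9 := split (p 1 1 - p 5 1) (p 1 0 - p 5 0) (p 1 2 - p 5 2)
    (h 1 5 (by decide) 0 (by decide)) (h 1 5 (by decide) 2 (by decide))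
  have h10 := split (p 4 2 - p 5 2) (p 4 0 - p 5 0) (p 4 1 - p 5 1)
    (h 4 5 (by decide) 0 (by decide)) (h 4 5 (by decide) 1 (by decide))
  have h11 := split (p 1 2 - p 2 2) (p 1 0 - p 2 0) (p 1 1 - p 2 1)
    (h 1 2 (by decide) 0 (by decide)) (h 1 2 (by decide) 1 (by decide))
  have h12 := split (p 3 2 - p 4 2) (p 3 0 - p 4 0) (p 3 1 - p 4 1)
    (h 3 4 (by decide) 0 (by decide)) (h 3 4 (by decide) 1 (by decide))
  have h13 := split (p 2 2 - p 3 2) (p 2 0 - p 3 0) (p 2 1 - p 3 1)
    (h 2 3 (by decide) 0 (by decide)) (h 2 3 (by decide) 1 (by decide))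
  have h14 := split (p 0 2 - p 1 2) (p 0 0 - p 1 0) (p 0 1 - p 1 1)
    (h 0 1 (by decide) 0 (by decide)) (h 0 1 (by decide) 1 (by decide))
  clear h
  rcases h1 with ⟨a1, b1, c1, d1⟩ | ⟨a1, b1, c1, d1⟩
  · show False
    rcases h8 with ⟨a8, b8, c8, d8⟩ | ⟨a8, b8, c8, d8⟩
    · show False
      rcases h14 with ⟨a14, b14, c14, d14⟩ | ⟨a14, b14, c14, d14⟩
      · show False
        rcases h9 with ⟨a9, b9, c9, d9⟩ | ⟨a9, b9, c9, d9⟩
        · show False
          rcases h0 with ⟨a0, b0, c0, d0⟩ | ⟨a0, b0, c0, d0⟩
          · show False
            linarith only [a0, a1, a8, a9]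
          · show False
            rcases h10 with ⟨a10, b10, c10, d10⟩ | ⟨a10, b10, c10, d10⟩
            · show False
              linarith only [c0, d1, b10, b14]
            · show False
              linarith only [a0, a1, c8, d9, b10, b14]
        · show False
          rcases h10 with ⟨a10, b10, c10, d10⟩ | ⟨a10, b10, c10, d10⟩
          · show False
            rcases h0 with ⟨a0, b0, c0, d0⟩ | ⟨a0, b0, c0, d0⟩
            · show False
              linarith only [c0, d1, a8, a9, d10, c14]
            · show False
              linarith only [c0, d1, b10, b14]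
          · show False
            linarith only [c8, d9, d10, c14]
      · show False
        rcases h0 with ⟨a0, b0, c0, d0⟩ | ⟨a0, b0, c0, d0⟩
        · show False
          rcases h9 with ⟨a9, b9, c9, d9⟩ | ⟨a9, b9, c9, d9⟩
          · show False
            linarith only [a0, a1, a8, a9]
          · show False
            rcases h10 with ⟨a10, b10, c10, d10⟩ | ⟨a10, b10, c10, d10⟩
            · show False
              linarith only [d8, c9, d10, c14]
            · show False
              linarith only [d0, c1, a8, a9, d10, c14]
        · show False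
          rcases h10 with ⟨a10, b10, c10, d10⟩ | ⟨a10, b10, c10, d10⟩
          · show False
            rcases h9 with ⟨a9, b9, c9, d9⟩ | ⟨a9, b9, c9, d9⟩
            · show False
              linarith only [a0, a1, d8, c9, b10, b14]
            · show False
              linarith only [d8, c9, d10, c14]
          · show False
            linarith only [d0, c1, b10, b14]
    · show False
      rcases h14 with ⟨a14, b14, c14, d14⟩ | ⟨a14, b14, c14, d14⟩
      · show False
        rcases h0 with ⟨a0, b0, c0, d0⟩ | ⟨a0, b0, c0, d0⟩
        · show False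
          rcases h9 with ⟨a9, b9, c9, d9⟩ | ⟨a9, b9, c9, d9⟩
          · show False
            rcases h10 with ⟨a10, b10, c10, d10⟩ | ⟨a10, b10, c10, d10⟩
            · show False
              linarith only [c0, d1, a8, a9, c10, d14]
            · show False
              linarith only [c8, d9, c10, d14]
          · show False
            linarith only [b0, b1, a8, a9]
        · show False
          rcases h10 with ⟨a10, b10, c10, d10⟩ | ⟨a10, b10, c10, d10⟩
          · show False
            linarith only [c0, d1, b10, b14]
          · show False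
            rcases h9 with ⟨a9, b9, c9, d9⟩ | ⟨a9, b9, c9, d9⟩
            · show False
              linarith only [c8, d9, c10, d14]
            · show False
              linarith only [b0, b1, c8, d9, b10, b14]
      · show False
        rcases h0 with ⟨a0, b0, c0, d0⟩ | ⟨a0, b0, c0, d0⟩
        · show False
          rcases h9 with ⟨a9, b9, c9, d9⟩ | ⟨a9, b9, c9, d9⟩
          · show False
            rcases h10 with ⟨a10, b10, c10, d10⟩ | ⟨a10, b10, c10, d10⟩
            · show False
              linarith only [d8, c9, c10, d14]
            · show False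
              linarith only [d0, c1, a8, a9, c10, d14]
          · show False
            linarith only [b0, b1, a8, a9]
        · show False
          rcases h10 with ⟨a10, b10, c10, d10⟩ | ⟨a10, b10, c10, d10⟩
          · show False
            rcases h9 with ⟨a9, b9, c9, d9⟩ | ⟨a9, b9, c9, d9⟩
            · show False
              linarith only [d8, c9, c10, d14]
            · show False
              linarith only [b0, b1, d8, c9, b10, b14]
          · show False
            linarith only [d0, c1, b10, b14]
  · show False
    rcases h8 with ⟨a8, b8, c8, d8⟩ | ⟨a8, b8, c8, d8⟩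
    · show False
      rcases h14 with ⟨a14, b14, c14, d14⟩ | ⟨a14, b14, c14, d14⟩
      · show False
        rcases h0 with ⟨a0, b0, c0, d0⟩ | ⟨a0, b0, c0, d0⟩
        · show False
          rcases h10 with ⟨a10, b10, c10, d10⟩ | ⟨a10, b10, c10, d10⟩
          · show False
            linarith only [c0, d1, a10, a14]
          · show False
            rcases h9 with ⟨a9, b9, c9, d9⟩ | ⟨a9, b9, c9, d9⟩
            · show False
              linarith only [a0, a1, c8, d9, a10, a14]
            · show False
              linarith only [c8, d9, d10, c14]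
        · show False
          rcases h9 with ⟨a9, b9, c9, d9⟩ | ⟨a9, b9, c9, d9⟩
          · show False
            linarith only [a0, a1, b8, b9]
          · show False
            rcases h10 with ⟨a10, b10, c10, d10⟩ | ⟨a10, b10, c10, d10⟩
            · show False
              linarith only [c0, d1, b8, b9, d10, c14]
            · show False
              linarith only [c8, d9, d10, c14]
      · show False
        rcases h0 with ⟨a0, b0, c0, d0⟩ | ⟨a0, b0, c0, d0⟩
        · show False
          rcases h10 with ⟨a10, b10, c10, d10⟩ | ⟨a10, b10, c10, d10⟩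
          · show False
            rcases h9 with ⟨a9, b9, c9, d9⟩ | ⟨a9, b9, c9, d9⟩
            · show False
              linarith only [a0, a1, d8, c9, a10, a14]
            · show False
              linarith only [d8, c9, d10, c14]
          · show False
            linarith only [d0, c1, a10, a14]
        · show False
          rcases h10 with ⟨a10, b10, c10, d10⟩ | ⟨a10, b10, c10, d10⟩
          · show False
            rcases h9 with ⟨a9, b9, c9, d9⟩ | ⟨a9, b9, c9, d9⟩
            · show False
              linarith only [a0, a1, b8, b9]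
            · show False
              linarith only [d8, c9, d10, c14]
          · show False
            rcases h9 with ⟨a9, b9, c9, d9⟩ | ⟨a9, b9, c9, d9⟩
            · show False
              linarith only [a0, a1, b8, b9]
            · show False
              linarith only [d0, c1, b8, b9, d10, c14]
    · show False
      rcases h14 with ⟨a14, b14, c14, d14⟩ | ⟨a14, b14, c14, d14⟩
      · show False
        rcases h10 with ⟨a10, b10, c10, d10⟩ | ⟨a10, b10, c10, d10⟩
        · show False
          rcases h0 with ⟨a0, b0, c0, d0⟩ | ⟨a0, b0, c0, d0⟩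
          · show False
            linarith only [c0, d1, a10, a14]
          · show False
            rcases h9 with ⟨a9, b9, c9, d9⟩ | ⟨a9, b9, c9, d9⟩
            · show False
              linarith only [c0, d1, b8, b9, c10, d14]
            · show False
              linarith only [b0, b1, b8, b9]
        · show False
          rcases h9 with ⟨a9, b9, c9, d9⟩ | ⟨a9, b9, c9, d9⟩
          · show False
            linarith only [c8, d9, c10, d14]
          · show False
            rcases h0 with ⟨a0, b0, c0, d0⟩ | ⟨a0, b0, c0, d0⟩
            · show False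
              linarith only [b0, b1, c8, d9, a10, a14]
            · show False
              linarith only [b0, b1, b8, b9]
      · show False
        rcases h0 with ⟨a0, b0, c0, d0⟩ | ⟨a0, b0, c0, d0⟩
        · show False
          rcases h10 with ⟨a10, b10, c10, d10⟩ | ⟨a10, b10, c10, d10⟩
          · show False
            rcases h9 with ⟨a9, b9, c9, d9⟩ | ⟨a9, b9, c9, d9⟩
            · show False
              linarith only [d8, c9, c10, d14]
            · show False
              linarith only [b0, b1, d8, c9, a10, a14]
          · show False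
            linarith only [d0, c1, a10, a14]
        · show False
          rcases h9 with ⟨a9, b9, c9, d9⟩ | ⟨a9, b9, c9, d9⟩
          · show False
            rcases h10 with ⟨a10, b10, c10, d10⟩ | ⟨a10, b10, c10, d10⟩
            · show False
              linarith only [d8, c9, c10, d14]
            · show False
              linarith only [d0, c1, b8, b9, c10, d14]
          · show False
            linarith only [b0, b1, b8, b9]

/-- the three trees -/
def T (i : Fin 3) : SimpleGraph (Fin 6) where
  Adj u v := u ≠ v ∧ col u v = i
  symm := ⟨by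
    intro u v h
    refine ⟨h.1.symm, ?_⟩
    have : ∀ u v : Fin 6, col u v = col v u := by decide
    rw [← this]; exact h.2⟩
  loopless := ⟨fun u h => h.1 rfl⟩

instance (i : Fin 3) : DecidableRel (T i).Adj := fun u v =>
  inferInstanceAs (Decidable (u ≠ v ∧ col u v = i))

theorem T_tree (i : Fin 3) : (T i).IsTree := by
  rw [SimpleGraph.isTree_iff_connected_and_card]
  constructor
  · revert i; decide
  · rw [Nat.card_eq_fintype_card, Nat.card_eq_fintype_card, ← SimpleGraph.edgeFinset_card]
    revert i; decide

end Pool.Agent.H902Z.LInf
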